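import Pool.Agent.HPR.Halv

/-!
# The expected chromatic number of random subgraphs: independence of the factor `1/2`

`G_q` is the random spanning subgraph of the finite graph `G` which keeps every edge with probability
`q`, independently, and `meanChi G q` is the expected chromatic number of `G_q`. The question is
whether, for a fixed `p`, the ratio `E χ(G_p) / E χ(G_(p/2))` is bounded over all graphs `G`.

Let `V` be a finite set and let `C` be a bound for the ratios `E χ(G_p) / E χ(G_(λ p))` of all graphs
`G` on `V`, for one `λ < 1`, for example `λ = 0.999`. Then `C ^ k` is a bound for the ratios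
`E χ(G_p') / E χ(G_(λ' p'))` of all graphs `G` on `V`, for all `p' ≤ p` and all `λ' ≥ λ ^ k`. So the
answer to the question for `p` does not change if the factor `1/2` is replaced by any other number in
`(0, 1)`, and it is monotone in `p`: if it is positive for `p`, it is positive for all `p' ≤ p`.

Proof: `(G_r)_q` has the law of `G_(r q)` (`thin`), so the inequality for `p` gives the inequality for
`r p`, by conditioning on `G_r`; it is iterated `k` times.
-/

set_option autoImplicit false

open Pool.Agent.HPR

namespace Pool.Agent.Results.MP_60473b_co.ScaleInvariance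

/-- Let `V` be a finite set, `p ≤ 1`, `0 < λ < 1`, and suppose that
`E χ(G_p) ≤ C E χ(G_(λ p))` for all graphs `G` on `V`. Then for all `0 < p' ≤ p`, all
`0 < λ' < 1`, all `k` with `λ ^ k ≤ λ'` and all graphs `G` on `V`,
`E χ(G_p') ≤ C ^ k E χ(G_(λ' p'))`. -/
theorem result {V : Type} [Fintype V] {p lam C : ℝ} (hp : p ≤ 1) (hlam : 0 < lam)
    (hlam1 : lam < 1) (hC : 0 ≤ C)
    (h : ∀ G : SimpleGraph V, meanChi G p ≤ C * meanChi G (lam * p)) {p' lam' : ℝ} (hp' : 0 < p')
    (hpp : p' ≤ p) (hlam' : 0 < lam') (hlam1' : lam' < 1) (k : ℕ) (hk : lam ^ k ≤ lam')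
    (G : SimpleGraph V) : meanChi G p' ≤ C ^ k * meanChi G (lam' * p') :=
  main hp hp' hpp hlam hlam1 hlam' hlam1' hC h k hk G

end Pool.Agent.Results.MP_60473b_co.ScaleInvariance
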